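import Pool.Agent.H36.TAut.Bridge

/-!
# Automorphisms of the tame automorphism group of `K⟨x,y,z⟩` (MP_396b13_al, Q1)

The definitions used in the statement (`A K`, `IsElementary`, `IsLinear`, `TAut`, `IsSemi`,
`SemiInner`) are in `Pool.Agent.H66.TA.Stmt`.

For a field `K` of characteristic zero there is an automorphism of the abstract group
`TAut K` which is not semi-inner.  The automorphism fixes all linear automorphisms and sends
the elementary automorphism `x ↦ x + P` to `x ↦ x + (3/2) P - (1/2) P*`, where `P*` is the mirror
image of `P`.  That it is well defined is the content of the proof: it needs a system of defining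
relations of `TAut K` (peak reduction).  The steps are:

* `Pool.Agent.H36.TAut.*`: subalgebras generated by two elements of the free algebra
  (`ND`: degree of the commutator of an element of `K⟨f,g⟩` with `f`);
* `Pool.Agent.H66.TA.*`: peak reduction and the descent for three elements;
* `Pool.Agent.H36.TAut.Bridge`: the assembly.
-/

namespace Pool.Agent.Results.MP_396b13_al.Exotic

open Pool.Agent.H66.TA

/-- For every field `K` of characteristic zero there is an automorphism of the abstract group
`TAut(K⟨x,y,z⟩)` which is not semi-inner. -/
theorem result (K : Type*) [Field K] [CharZero K] :
    ∃ φ : TAut K ≃* TAut K, ¬ SemiInner K φ :=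
  H36.Bridge.main

end Pool.Agent.Results.MP_396b13_al.Exotic
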